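import Mathlib

/-!
# Stable manifolds of skew products over `z ↦ z ^ d`
-/

set_option autoImplicit false

open Filter Topology Set

namespace Pool.Agent.Helper53K9.SK

/-- The skew product `F (z₁, z₂, z₃) = (z₁ ^ d, G_{z₁} (z₂, z₃))`. -/
def skew (d : ℕ) (G : ℂ → ℂ × ℂ → ℂ × ℂ) (z : ℂ × ℂ × ℂ) : ℂ × ℂ × ℂ :=
  (z.1 ^ d, G z.1 z.2)

/-- The hypotheses on the maps `G_λ`: the map `(z₁, z₂, z₃) ↦ G_{z₁} (z₂, z₃)` is holomorphic, and for
`|λ| = 1` the map `G_λ` is an automorphism of `ℂ²` that fixes the origin, and all the eigenvalues of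
its derivative at the origin have modulus less than one. -/
structure Admissible (G : ℂ → ℂ × ℂ → ℂ × ℂ) : Prop where
  holomorphic : Differentiable ℂ fun z : ℂ × ℂ × ℂ => G z.1 z.2
  automorphism : ∀ l : ℂ, ‖l‖ = 1 → ∃ H : ℂ × ℂ → ℂ × ℂ, Differentiable ℂ H ∧
    Function.LeftInverse H (G l) ∧ Function.RightInverse H (G l)
  fix : ∀ l : ℂ, ‖l‖ = 1 → G l 0 = 0
  attracting : ∀ l : ℂ, ‖l‖ = 1 → ∀ (μ : ℂ) (v : ℂ × ℂ), v ≠ 0 →
    fderiv ℂ (G l) 0 v = μ • v → ‖μ‖ < 1

/-- The stable manifold `Σ^s(p)` of the point `p = (p₁, 0, 0)` in the fibre over `p₁`. -/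
def stableSet (d : ℕ) (G : ℂ → ℂ × ℂ → ℂ × ℂ) (p₁ : ℂ) : Set (ℂ × ℂ) :=
  {w | Tendsto (fun n : ℕ => ‖(skew d G)^[n] (p₁, w) - (skew d G)^[n] (p₁, 0)‖) atTop (𝓝 0)}

/-- `S` is the image of an injective holomorphic map from `ℂ²` to `ℂ²`. (Every set that is
biholomorphic to `ℂ²` is such an image.) -/
def IsInjectiveHolomorphicImage (S : Set (ℂ × ℂ)) : Prop :=
  ∃ f : ℂ × ℂ → ℂ × ℂ, Differentiable ℂ f ∧ Function.Injective f ∧ range f = S

/-- There are no injective holomorphic functions on `ℂ²`. -/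
theorem not_injective (h : ℂ × ℂ → ℂ) (hd : Differentiable ℂ h) : ¬ Function.Injective h := by
  intro hinj
  let g : ℂ → ℂ := fun z => h (0, z)
  have hg : Differentiable ℂ g := hd.comp ((differentiable_const (0 : ℂ)).prodMk differentiable_id)
  have hga : AnalyticOnNhd ℂ g univ := hg.differentiableOn.analyticOnNhd isOpen_univ
  have hginj : Function.Injective g := by
    intro a b hab
    have := hinj hab
    exact (Prod.mk.inj this).2
  rcases hga.is_constant_or_isOpen isPreconnected_univ with ⟨w, hw⟩ | hop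
  · have : (0 : ℂ) = 1 := hginj ((hw 0 (mem_univ _)).trans (hw 1 (mem_univ _)).symm)
    exact zero_ne_one this
  · have h1 : IsOpen (g '' Metric.ball 0 1) := hop _ (subset_univ _) Metric.isOpen_ball
    have h2 : g '' Metric.ball 0 1 ∈ 𝓝 (h (0, 0)) :=
      h1.mem_nhds ⟨0, Metric.mem_ball_self one_pos, rfl⟩
    have h3 : Tendsto (fun z : ℂ => h (z, 0)) (𝓝 0) (𝓝 (h (0, 0))) := by
      have : Continuous fun z : ℂ => h (z, 0) :=
        hd.continuous.comp (continuous_id.prodMk continuous_const)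
      exact this.tendsto 0
    have h4 : ∀ᶠ z : ℂ in 𝓝[≠] 0, h (z, 0) ∈ g '' Metric.ball 0 1 :=
      (h3.eventually h2).filter_mono nhdsWithin_le_nhds
    obtain ⟨z, hz, hz0⟩ := (h4.and self_mem_nhdsWithin).exists
    obtain ⟨w, -, hw⟩ := hz
    have := hinj hw
    exact hz0 (Prod.mk.inj this).1.symm

/-- A proper subspace of `ℂ²` is not the image of an injective holomorphic map. -/
theorem not_image_of_ne_top (S : Submodule ℂ (ℂ × ℂ)) (hS : S ≠ ⊤) :
    ¬ IsInjectiveHolomorphicImage (S : Set (ℂ × ℂ)) := by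
  rintro ⟨f, hf, hinj, hr⟩
  obtain ⟨e, he⟩ : ∃ e, e ∉ S := by
    by_contra h
    push Not at h
    exact hS (Submodule.eq_top_iff'.2 h)
  have hfS : ∀ z, f z ∈ S := fun z => by
    have : f z ∈ range f := ⟨z, rfl⟩
    rw [hr] at this
    exact this
  refine not_injective (fun z => (f z).1 * e.2 - (f z).2 * e.1) ?_ ?_
  · exact ((hf.fst).mul_const _).sub ((hf.snd).mul_const _)
  · intro a b hab
    have hab : (f a).1 * e.2 - (f a).2 * e.1 = (f b).1 * e.2 - (f b).2 * e.1 := hab
    apply hinj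
    by_contra hne
    have hw : f a - f b ∈ S := S.sub_mem (hfS a) (hfS b)
    obtain ⟨w, hw'⟩ : ∃ w, w = f a - f b := ⟨_, rfl⟩
    rw [← hw'] at hw
    have hw0 : w ≠ 0 := by rw [hw']; exact sub_ne_zero.2 hne
    have hl : w.1 * e.2 = w.2 * e.1 := by
      rw [hw', Prod.fst_sub, Prod.snd_sub]
      linear_combination hab
    apply he
    by_cases h1 : w.1 = 0
    · have h2 : w.2 ≠ 0 := fun h2 => hw0 (Prod.ext h1 h2)
      have h3 : e.1 = 0 := by
        rw [h1, zero_mul] at hl
        rcases mul_eq_zero.1 hl.symm with h | h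
        · exact absurd h h2
        · exact h
      have : e = (e.2 / w.2) • w := by
        refine Prod.ext ?_ ?_
        · rw [h3, Prod.smul_fst, h1, smul_zero]
        · rw [Prod.smul_snd, smul_eq_mul, div_mul_cancel₀ _ h2]
      rw [this]
      exact S.smul_mem _ hw
    · have : e = (e.1 / w.1) • w := by
        refine Prod.ext ?_ ?_
        · rw [Prod.smul_fst, smul_eq_mul, div_mul_cancel₀ _ h1]
        · rw [Prod.smul_snd, smul_eq_mul]
          field_simp
          linear_combination hl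
      rw [this]
      exact S.smul_mem _ hw

end Pool.Agent.Helper53K9.SK
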