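import Pool.Agent.Helper53K9.SK.Basic

/-!
# Skew products with linear fibre maps
-/

set_option autoImplicit false

open Filter Topology Set

namespace Pool.Agent.Helper53K9.SK

/-- The iterates of the skew product, in the fibre over `p`. -/
def iter (d : ℕ) (A : ℂ → Module.End ℂ (ℂ × ℂ)) (p : ℂ) : ℕ → Module.End ℂ (ℂ × ℂ)
  | 0 => 1
  | n + 1 => A (p ^ d ^ n) * iter d A p n

section

variable (d : ℕ) (A : ℂ → Module.End ℂ (ℂ × ℂ))

theorem skew_iterate (p : ℂ) (w : ℂ × ℂ) (n : ℕ) :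
    (skew d fun l w => A l w)^[n] (p, w) = (p ^ d ^ n, iter d A p n w) := by
  induction n with
  | zero => simp [iter]
  | succ n ih =>
    rw [Function.iterate_succ_apply', ih]
    simp only [skew, iter]
    refine Prod.ext ?_ rfl
    simp only
    rw [← pow_mul, pow_succ]

theorem iter_add (p : ℂ) (k n : ℕ) :
    iter d A p (k + n) = iter d A (p ^ d ^ k) n * iter d A p k := by
  induction n with
  | zero => simp [iter]
  | succ n ih =>
    rw [← add_assoc]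
    simp only [iter]
    rw [ih, mul_assoc, pow_add, pow_mul]

theorem mem_stableSet (p : ℂ) (w : ℂ × ℂ) :
    w ∈ stableSet d (fun l w => A l w) p ↔
      Tendsto (fun n => iter d A p n w) atTop (𝓝 0) := by
  unfold stableSet
  rw [mem_ofPred_eq]
  have : ∀ n : ℕ, ‖(skew d fun l w => A l w)^[n] (p, w) -
      (skew d fun l w => A l w)^[n] (p, 0)‖ = ‖iter d A p n w‖ := by
    intro n
    rw [skew_iterate, skew_iterate, map_zero, Prod.mk_sub_mk, sub_self, sub_zero, Prod.norm_mk,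
      norm_zero, max_eq_right (norm_nonneg _)]
  simp only [this]
  exact tendsto_zero_iff_norm_tendsto_zero.symm

/-- The stable set as a subspace. -/
def stab (p : ℂ) : Submodule ℂ (ℂ × ℂ) where
  carrier := {w | Tendsto (fun n => iter d A p n w) atTop (𝓝 0)}
  add_mem' := by
    intro a b ha hb
    have := Tendsto.add ha hb
    rw [add_zero] at this
    refine this.congr fun n => ?_
    rw [map_add]
  zero_mem' := by
    show Tendsto _ _ _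
    simp only [map_zero]
    exact tendsto_const_nhds
  smul_mem' := by
    intro c a ha
    have := Tendsto.const_smul ha c
    rw [smul_zero] at this
    refine this.congr fun n => ?_
    rw [map_smul]

theorem stableSet_eq (p : ℂ) : stableSet d (fun l w => A l w) p = (stab d A p : Set (ℂ × ℂ)) := by
  ext w
  exact mem_stableSet d A p w

end

/-- The fibre maps of the example. -/
def fib (κ x y : ℂ) : Module.End ℂ (ℂ × ℂ) where
  toFun w := (κ * (w.1 + (x * w.2 - y * w.1) * x), κ * (w.2 + (x * w.2 - y * w.1) * y))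
  map_add' a b := by
    refine Prod.ext ?_ ?_ <;> simp only [Prod.fst_add, Prod.snd_add] <;> ring
  map_smul' c a := by
    refine Prod.ext ?_ ?_ <;>
      simp only [Prod.smul_fst, Prod.smul_snd, smul_eq_mul, RingHom.id_apply] <;> ring

theorem fib_apply (κ x y : ℂ) (w : ℂ × ℂ) : fib κ x y w =
    (κ * (w.1 + (x * w.2 - y * w.1) * x), κ * (w.2 + (x * w.2 - y * w.1) * y)) := rfl

/-- The inverse of `fib`. -/
theorem fib_left_inv {κ : ℂ} (hκ : κ ≠ 0) (x y : ℂ) (w : ℂ × ℂ) :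
    (fun w : ℂ × ℂ => (κ⁻¹ * (w.1 - (x * w.2 - y * w.1) * x),
      κ⁻¹ * (w.2 - (x * w.2 - y * w.1) * y))) (fib κ x y w) = w := by
  rw [fib_apply]
  refine Prod.ext ?_ ?_
  · simp only
    field_simp
    ring
  · simp only
    field_simp
    ring

theorem fib_right_inv {κ : ℂ} (hκ : κ ≠ 0) (x y : ℂ) (w : ℂ × ℂ) :
    fib κ x y ((fun w : ℂ × ℂ => (κ⁻¹ * (w.1 - (x * w.2 - y * w.1) * x),
      κ⁻¹ * (w.2 - (x * w.2 - y * w.1) * y))) w) = w := by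
  rw [fib_apply]
  refine Prod.ext ?_ ?_
  · simp only
    field_simp
    ring
  · simp only
    field_simp
    ring

theorem fib_eigen (κ x y μ : ℂ) (v : ℂ × ℂ) (hv : v ≠ 0) (h : fib κ x y v = μ • v) : μ = κ := by
  rw [fib_apply] at h
  have h1 := congrArg Prod.fst h
  have h2 := congrArg Prod.snd h
  simp only [Prod.smul_fst, Prod.smul_snd, smul_eq_mul] at h1 h2
  by_cases ht : x * v.2 - y * v.1 = 0
  · rw [ht] at h1 h2
    by_cases hv1 : v.1 = 0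
    · have hv2 : v.2 ≠ 0 := fun hv2 => hv (Prod.ext hv1 hv2)
      refine mul_right_cancel₀ hv2 ?_
      linear_combination -h2
    · refine mul_right_cancel₀ hv1 ?_
      linear_combination -h1
  · refine mul_right_cancel₀ ht ?_
    linear_combination y * h1 - x * h2

theorem fderiv_lin (L : Module.End ℂ (ℂ × ℂ)) (v : ℂ × ℂ) :
    fderiv ℂ (fun w => L w) 0 v = L v := by
  have : (fun w => L w) = fun w => (LinearMap.toContinuousLinearMap L) w := rfl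
  rw [this, ContinuousLinearMap.fderiv]
  rfl

/-- The family of the fibre maps. -/
noncomputable def fam (κ R ζ η : ℂ) (l : ℂ) : Module.End ℂ (ℂ × ℂ) :=
  fib κ (R * (l - η)) (R * (l - ζ))

theorem fam_differentiable (κ R ζ η : ℂ) :
    Differentiable ℂ fun z : ℂ × ℂ × ℂ => fam κ R ζ η z.1 z.2 := by
  unfold fam
  simp only [fib_apply]
  fun_prop

theorem fam_admissible {κ : ℂ} (hκ : κ ≠ 0) (hκ1 : ‖κ‖ < 1) (R ζ η : ℂ) :
    Admissible fun l w => fam κ R ζ η l w := by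
  refine ⟨fam_differentiable κ R ζ η, ?_, ?_, ?_⟩
  · intro l _
    refine ⟨fun w : ℂ × ℂ =>
      (κ⁻¹ * (w.1 - ((R * (l - η)) * w.2 - (R * (l - ζ)) * w.1) * (R * (l - η))),
        κ⁻¹ * (w.2 - ((R * (l - η)) * w.2 - (R * (l - ζ)) * w.1) * (R * (l - ζ)))), ?_,
      fun w => fib_left_inv hκ (R * (l - η)) (R * (l - ζ)) w,
      fun w => fib_right_inv hκ (R * (l - η)) (R * (l - ζ)) w⟩
    fun_prop
  · intro l _
    exact map_zero _
  · intro l _ μ v hv h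
    rw [fderiv_lin] at h
    rw [fib_eigen _ _ _ _ v hv h]
    exact hκ1

/-- Growth over the periodic orbit of length two. -/
theorem growth {κ : ℝ} (hκ : 0 < κ) {s : ℂ} (hs : 3 + 1 / κ ^ 2 ≤ ‖s‖) (u v : ℂ)
    (huv : ‖u‖ ≤ ‖v‖) (hv : 1 ≤ ‖v‖) :
    ‖(κ : ℂ) * ((κ : ℂ) * (u + s * v))‖ ≤
        ‖(κ : ℂ) * ((κ : ℂ) * v - s * ((κ : ℂ) * (u + s * v)))‖ ∧
      1 ≤ ‖(κ : ℂ) * ((κ : ℂ) * v - s * ((κ : ℂ) * (u + s * v)))‖ := by
  have hκ2 : 0 < κ ^ 2 := by positivity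
  have hs3 : 3 ≤ ‖s‖ := by
    have : 0 ≤ 1 / κ ^ 2 := by positivity
    linarith
  have hsκ : 1 ≤ κ ^ 2 * ‖s‖ := by
    have h1 : 1 / κ ^ 2 ≤ ‖s‖ := by linarith
    rw [div_le_iff₀ hκ2] at h1
    linarith
  have e1 : ‖(κ : ℂ) * ((κ : ℂ) * (u + s * v))‖ = κ ^ 2 * ‖u + s * v‖ := by
    rw [norm_mul, norm_mul, Complex.norm_real, Real.norm_of_nonneg hκ.le]
    ring
  have e2 : ‖(κ : ℂ) * ((κ : ℂ) * v - s * ((κ : ℂ) * (u + s * v)))‖ =
      κ ^ 2 * ‖v - s * (u + s * v)‖ := by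
    have : (κ : ℂ) * ((κ : ℂ) * v - s * ((κ : ℂ) * (u + s * v))) =
        (κ : ℂ) * ((κ : ℂ) * (v - s * (u + s * v))) := by ring
    rw [this, norm_mul, norm_mul, Complex.norm_real, Real.norm_of_nonneg hκ.le]
    ring
  have h1 : ‖u + s * v‖ ≤ (1 + ‖s‖) * ‖v‖ := by
    calc ‖u + s * v‖ ≤ ‖u‖ + ‖s * v‖ := norm_add_le _ _
      _ = ‖u‖ + ‖s‖ * ‖v‖ := by rw [norm_mul]
      _ ≤ (1 + ‖s‖) * ‖v‖ := by linarith
  have h2 : (‖s‖ ^ 2 - ‖s‖ - 1) * ‖v‖ ≤ ‖v - s * (u + s * v)‖ := by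
    have e3 : v - s * (u + s * v) = -(s ^ 2 * v - (v - s * u)) := by ring
    rw [e3, norm_neg]
    have h3 : ‖s ^ 2 * v‖ - ‖v - s * u‖ ≤ ‖s ^ 2 * v - (v - s * u)‖ := norm_sub_norm_le _ _
    have h4 : ‖v - s * u‖ ≤ ‖v‖ + ‖s‖ * ‖v‖ := by
      calc ‖v - s * u‖ ≤ ‖v‖ + ‖s * u‖ := norm_sub_le _ _
        _ = ‖v‖ + ‖s‖ * ‖u‖ := by rw [norm_mul]
        _ ≤ ‖v‖ + ‖s‖ * ‖v‖ := by gcongr
    rw [norm_mul, norm_pow] at h3
    linarith
  have h5 : ‖s‖ ≤ ‖s‖ ^ 2 - ‖s‖ - 1 := by nlinarith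
  have h6 : 1 + ‖s‖ ≤ ‖s‖ ^ 2 - ‖s‖ - 1 := by nlinarith
  rw [e1, e2]
  refine ⟨?_, ?_⟩
  · refine mul_le_mul_of_nonneg_left (h1.trans (le_trans ?_ h2)) hκ2.le
    exact mul_le_mul_of_nonneg_right h6 (norm_nonneg _)
  · have h7 : ‖s‖ ≤ ‖v - s * (u + s * v)‖ := by
      refine le_trans ?_ h2
      calc ‖s‖ = ‖s‖ * 1 := (mul_one _).symm
        _ ≤ (‖s‖ ^ 2 - ‖s‖ - 1) * ‖v‖ := by
          refine mul_le_mul h5 hv zero_le_one (by linarith)
    exact hsκ.trans (mul_le_mul_of_nonneg_left h7 hκ2.le)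

/-- The vector `(0, 1)` is not in the stable set of the periodic point. -/
theorem not_mem {d : ℕ} {κ : ℝ} (hκ : 0 < κ) {R ζ η : ℂ} (hη : ζ ^ d = η) (hζ : η ^ d = ζ)
    (hR : 3 + 1 / κ ^ 2 ≤ ‖(R * (ζ - η)) ^ 2‖) :
    ((0 : ℂ), (1 : ℂ)) ∉ stab d (fam κ R ζ η) ζ := by
  intro h
  have h : Tendsto (fun n => iter d (fam κ R ζ η) ζ n ((0 : ℂ), (1 : ℂ))) atTop (𝓝 0) := h
  have hper : ∀ n : ℕ, ζ ^ d ^ (2 * n) = ζ := by
    intro n
    induction n with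
    | zero => simp
    | succ n ih =>
      rw [show 2 * (n + 1) = 2 * n + 1 + 1 by ring, pow_succ, pow_succ, pow_mul, pow_mul, ih, hη,
        hζ]
  have hper' : ∀ n : ℕ, ζ ^ d ^ (2 * n + 1) = η := by
    intro n
    rw [pow_succ, pow_mul, hper, hη]
  have key : ∀ n : ℕ, ‖(iter d (fam κ R ζ η) ζ (2 * n) ((0 : ℂ), (1 : ℂ))).1‖ ≤
      ‖(iter d (fam κ R ζ η) ζ (2 * n) ((0 : ℂ), (1 : ℂ))).2‖ ∧
      1 ≤ ‖(iter d (fam κ R ζ η) ζ (2 * n) ((0 : ℂ), (1 : ℂ))).2‖ := by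
    intro n
    induction n with
    | zero => simp [iter]
    | succ n ih =>
      obtain ⟨w, hw⟩ : ∃ w, w = iter d (fam κ R ζ η) ζ (2 * n) ((0 : ℂ), (1 : ℂ)) := ⟨_, rfl⟩
      rw [← hw] at ih
      have e1 : iter d (fam κ R ζ η) ζ (2 * (n + 1)) ((0 : ℂ), (1 : ℂ)) =
          fam κ R ζ η η (fam κ R ζ η ζ w) := by
        rw [show 2 * (n + 1) = 2 * n + 1 + 1 by ring]
        simp only [iter]
        rw [hper, hper', hw]
        rfl
      have h1 := growth hκ hR w.1 w.2 ih.1 ih.2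
      rw [e1]
      unfold fam
      rw [fib_apply, fib_apply]
      simp only [sub_self, mul_zero, zero_mul, sub_zero, add_zero, zero_sub]
      convert h1 using 3 <;> ring
  have h2 : Tendsto (fun n : ℕ => ‖(iter d (fam κ R ζ η) ζ (2 * n) ((0 : ℂ), (1 : ℂ))).2‖) atTop
      (𝓝 0) := by
    have h3 : Tendsto (fun n : ℕ => 2 * n) atTop atTop :=
      tendsto_id.const_mul_atTop' (by norm_num)
    have h4 := (continuous_snd.tendsto _).comp (h.comp h3)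
    have h5 := h4.norm
    simpa using h5
  have h6 := ge_of_tendsto h2 (Eventually.of_forall fun n => (key n).2)
  linarith

/-- The iterates are onto. -/
theorem iter_surjective {d : ℕ} {κ : ℂ} (hκ : κ ≠ 0) (R ζ η q : ℂ) (k : ℕ) :
    Function.Surjective (iter d (fam κ R ζ η) q k) := by
  induction k with
  | zero => intro w; exact ⟨w, rfl⟩
  | succ k ih =>
    intro w
    obtain ⟨v, hv⟩ : ∃ v, fam κ R ζ η (q ^ d ^ k) v = w := ⟨_, fib_right_inv hκ _ _ w⟩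
    obtain ⟨u, hu⟩ := ih v
    refine ⟨u, ?_⟩
    show fam κ R ζ η (q ^ d ^ k) (iter d (fam κ R ζ η) q k u) = w
    rw [hu, hv]

/-- If the orbit of `q` hits the periodic point, then the stable set is a proper subspace. -/
theorem stab_ne_top {d : ℕ} {κ : ℝ} (hκ : 0 < κ) {R ζ η : ℂ} (hη : ζ ^ d = η) (hζ : η ^ d = ζ)
    (hR : 3 + 1 / κ ^ 2 ≤ ‖(R * (ζ - η)) ^ 2‖) {q : ℂ} {k : ℕ} (hq : q ^ d ^ k = ζ) :
    stab d (fam κ R ζ η) q ≠ ⊤ := by
  intro htop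
  have hκ' : (κ : ℂ) ≠ 0 := by exact_mod_cast hκ.ne'
  obtain ⟨w, hw⟩ := iter_surjective (d := d) hκ' R ζ η q k ((0 : ℂ), (1 : ℂ))
  have h1 : w ∈ stab d (fam κ R ζ η) q := by rw [htop]; trivial
  have h1 : Tendsto (fun n => iter d (fam κ R ζ η) q n w) atTop (𝓝 0) := h1
  apply not_mem hκ hη hζ hR
  show Tendsto (fun n => iter d (fam κ R ζ η) ζ n ((0 : ℂ), (1 : ℂ))) atTop (𝓝 0)
  have h2 : Tendsto (fun n : ℕ => k + n) atTop atTop :=
    tendsto_atTop_mono (fun n => Nat.le_add_left n k) tendsto_id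
  refine (h1.comp h2).congr fun n => ?_
  show iter d (fam κ R ζ η) q (k + n) w = _
  rw [iter_add, hq, ← hw]
  rfl

/-- The backward orbit of a point of the circle is dense in the circle. -/
theorem dense_preimages {d : ℕ} (hd : 2 ≤ d) (θ₀ φ ε : ℝ) (hε : 0 < ε) :
    ∃ (k : ℕ) (t : ℝ), |t - φ| < ε ∧ Complex.exp (t * Complex.I) ^ d ^ k =
      Complex.exp (θ₀ * Complex.I) := by
  have hpi : 0 < 2 * Real.pi := by positivity
  obtain ⟨k, hk⟩ : ∃ k : ℕ, 2 * Real.pi / ε < (d : ℝ) ^ k :=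
    pow_unbounded_of_one_lt _ (by exact_mod_cast hd)
  have hdk : (0 : ℝ) < (d : ℝ) ^ k := by positivity
  obtain ⟨m, hm⟩ : ∃ m : ℤ, m = ⌊(φ * (d : ℝ) ^ k - θ₀) / (2 * Real.pi)⌋ := ⟨_, rfl⟩
  refine ⟨k, (θ₀ + 2 * Real.pi * m) / (d : ℝ) ^ k, ?_, ?_⟩
  · have h1 : (m : ℝ) ≤ (φ * (d : ℝ) ^ k - θ₀) / (2 * Real.pi) := by rw [hm]; exact Int.floor_le _
    have h2 : (φ * (d : ℝ) ^ k - θ₀) / (2 * Real.pi) < m + 1 := by
      rw [hm]; exact Int.lt_floor_add_one _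
    rw [le_div_iff₀ hpi] at h1
    rw [div_lt_iff₀ hpi] at h2
    have h3 : (θ₀ + 2 * Real.pi * m) / (d : ℝ) ^ k - φ =
        (θ₀ + 2 * Real.pi * m - φ * (d : ℝ) ^ k) / (d : ℝ) ^ k := by
      field_simp
    rw [h3, abs_div, abs_of_pos hdk, div_lt_iff₀ hdk]
    have h4 : |θ₀ + 2 * Real.pi * m - φ * (d : ℝ) ^ k| ≤ 2 * Real.pi := by
      rw [abs_le]
      constructor <;> linarith
    refine lt_of_le_of_lt h4 ?_
    rw [div_lt_iff₀ hε] at hk
    linarith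
  · rw [← Complex.exp_nat_mul]
    have hdk' : ((d : ℂ)) ^ k ≠ 0 := by
      have : (d : ℂ) ≠ 0 := by
        have : d ≠ 0 := by omega
        exact_mod_cast this
      positivity
    have h5 : ((d ^ k : ℕ) : ℂ) * ((((θ₀ + 2 * Real.pi * m) / (d : ℝ) ^ k : ℝ) : ℂ) * Complex.I) =
        θ₀ * Complex.I + m * (2 * Real.pi * Complex.I) := by
      push_cast
      field_simp
    rw [h5, Complex.exp_add, Complex.exp_int_mul_two_pi_mul_I, mul_one]

theorem two_cycle {d : ℕ} (hd : 2 ≤ d) :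
    ∃ (θ : ℝ) (η : ℂ), Complex.exp (θ * Complex.I) ^ d = η ∧ η ^ d = Complex.exp (θ * Complex.I) ∧
      Complex.exp (θ * Complex.I) ≠ η := by
  have hd0 : ((d : ℂ) + 1) ≠ 0 := by exact_mod_cast Nat.succ_ne_zero d
  have hprim : IsPrimitiveRoot (Complex.exp (2 * Real.pi * Complex.I / ((d + 1 : ℕ) : ℂ))) (d + 1) :=
    Complex.isPrimitiveRoot_exp (d + 1) (Nat.succ_ne_zero d)
  obtain ⟨ζ, hζ⟩ : ∃ ζ, ζ = Complex.exp (2 * Real.pi * Complex.I / ((d + 1 : ℕ) : ℂ)) := ⟨_, rfl⟩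
  rw [← hζ] at hprim
  have hθ : Complex.exp (((2 * Real.pi / (d + 1 : ℝ) : ℝ) : ℂ) * Complex.I) = ζ := by
    rw [hζ]
    congr 1
    push_cast
    ring
  refine ⟨2 * Real.pi / (d + 1), ζ ^ d, ?_, ?_, ?_⟩
  · rw [hθ]
  · rw [hθ, ← pow_mul]
    obtain ⟨m, hm⟩ : ∃ m, d * d = (d + 1) * m + 1 := ⟨d - 1, by
      obtain ⟨e, rfl⟩ : ∃ e, d = e + 1 := ⟨d - 1, by omega⟩
      rw [Nat.add_sub_cancel]; ring⟩
    rw [hm, pow_add, pow_mul, hprim.pow_eq_one, one_pow, one_mul, pow_one]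
  · rw [hθ]
    intro h
    have h0 : ζ ≠ 0 := hprim.ne_zero (Nat.succ_ne_zero d)
    have h1 : ζ ^ (d - 1) = 1 := by
      apply mul_right_cancel₀ h0
      rw [← pow_succ, one_mul, show d - 1 + 1 = d by omega]
      exact h.symm
    have h2 := hprim.dvd_of_pow_eq_one _ h1
    have h3 := Nat.le_of_dvd (by omega) h2
    omega

/-- The main theorem, in terms of `fam`. -/
theorem main {d : ℕ} (hd : 2 ≤ d) {κ : ℝ} (hκ : 0 < κ) (hκ1 : κ < 1) :
    ∃ A : ℂ → Module.End ℂ (ℂ × ℂ), (Admissible fun l w => A l w) ∧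
      (∀ (l μ : ℂ) (v : ℂ × ℂ), v ≠ 0 → A l v = μ • v → μ = κ) ∧
      ∀ p₁ : ℂ, ‖p₁‖ = 1 → ∀ ε > 0, ∃ q : ℂ, ‖q‖ = 1 ∧ ‖q - p₁‖ < ε ∧
        ¬ IsInjectiveHolomorphicImage (stableSet d (fun l w => A l w) q) := by
  obtain ⟨θ, η, h1, h2, h3⟩ := two_cycle hd
  obtain ⟨ζ, hζ⟩ : ∃ ζ, ζ = Complex.exp (θ * Complex.I) := ⟨_, rfl⟩
  rw [← hζ] at h1 h2 h3
  have h4 : 0 < ‖ζ - η‖ := norm_pos_iff.2 (sub_ne_zero.2 h3)
  obtain ⟨R, hR⟩ : ∃ R : ℝ, R = (3 + 1 / κ ^ 2) / ‖ζ - η‖ := ⟨_, rfl⟩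
  have hR0 : 0 < R := by rw [hR]; positivity
  have hR1 : 3 + 1 / κ ^ 2 ≤ ‖((R : ℂ) * (ζ - η)) ^ 2‖ := by
    rw [norm_pow, norm_mul, Complex.norm_real, Real.norm_of_nonneg hR0.le, hR,
      div_mul_cancel₀ _ h4.ne']
    have : 0 ≤ 1 / κ ^ 2 := by positivity
    nlinarith
  have hκ' : (κ : ℂ) ≠ 0 := by exact_mod_cast hκ.ne'
  refine ⟨fam κ R ζ η, ?_, ?_, ?_⟩
  · apply fam_admissible hκ'
    rw [Complex.norm_real, Real.norm_of_nonneg hκ.le]
    exact hκ1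
  · intro l μ v hv h
    exact fib_eigen _ _ _ _ v hv h
  · intro p₁ hp₁ ε hε
    obtain ⟨φ, hφ⟩ : ∃ φ : ℝ, p₁ = Complex.exp (φ * Complex.I) := by
      obtain ⟨φ, hφ⟩ := (Complex.norm_eq_one_iff p₁).1 hp₁
      exact ⟨φ, hφ.symm⟩
    have hcont : Continuous fun t : ℝ => Complex.exp (t * Complex.I) := by fun_prop
    obtain ⟨δ, hδ, hδ'⟩ := Metric.continuous_iff.1 hcont φ ε hε
    obtain ⟨k, t, ht, htk⟩ := dense_preimages hd θ φ δ hδ
    refine ⟨Complex.exp (t * Complex.I), Complex.norm_exp_ofReal_mul_I t, ?_, ?_⟩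
    · have := hδ' t (by rw [Real.dist_eq]; exact ht)
      rw [dist_eq_norm] at this
      rw [hφ]
      exact this
    · rw [stableSet_eq]
      apply not_image_of_ne_top
      exact stab_ne_top hκ h1 h2 hR1 (htk.trans hζ.symm)

end Pool.Agent.Helper53K9.SK
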